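import Pool.Agent.Run7.h480.BF.Iface

/-!
Project BF (helper480), piece CNT (helper688), and the common lemmas on stars.
-/

set_option autoImplicit false

open Set Module

namespace Run7.h688.BF

open Run7.h480.BF

variable {E : Type} [Fintype E]

lemma poly_add {σ : Set (E → ℝ)} (h : IsPoly σ) {x y : E → ℝ} (hx : x ∈ σ) (hy : y ∈ σ) : x + y ∈ σ := by
  obtain ⟨n, f, rfl⟩ := h
  intro i
  rw [map_add]
  exact add_nonneg (hx i) (hy i)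

lemma dim_mono {σ τ : Set (E → ℝ)} (h : σ ⊆ τ) : dim σ ≤ dim τ :=
  Submodule.finrank_mono (Submodule.span_mono h)

/-- the data of a star -/
structure SD (M : Matroid E) (r : ℕ) (S : Set (Set (E → ℝ))) (v : E → ℝ) (u : Set (E → ℝ)) where
  N : Matroid E
  okN : OK N r
  fan : FanOn N (star S v)
  dm : ∀ σ ∈ S, v ∈ σ → dim (tan σ v) = dim σ
  sub : ∀ σ ∈ S, ∀ τ ∈ S, v ∈ σ → v ∈ τ → (tan σ v ⊆ tan τ v ↔ σ ⊆ τ)
  ld : dim (lin (star S v)) = dim u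

lemma exists_SD (hSTF : S_STF) (hSTM : S_STM) (hMAT : S_MAT) (M : Matroid E) (r : ℕ)
    (S : Set (Set (E → ℝ))) (hM : OK M r) (hS : FanOn M S) (v : E → ℝ) (u : Set (E → ℝ))
    (hc : Car S v u) : Nonempty (SD M r S v u) := by
  have hvS : v ∈ ⋃₀ S := ⟨u, hc.mem, hc.x_mem⟩
  have hv : v ∈ berg M := by rw [← hS.supp]; exact hvS
  obtain ⟨N, hN, hIN⟩ := hMAT E M r hM v hv
  obtain ⟨h1, h2, h3, h4⟩ := hSTF E S hS.fan v hvS
  exact ⟨⟨N, hN, ⟨h1, hSTM E M N r S hM hN hS v hv hIN⟩, h2, h3, h4 u hc⟩⟩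

/-- the image of `R` in the star -/
def RR (R : Set (Set (E → ℝ))) (v : E → ℝ) : Set (Set (E → ℝ)) :=
  (fun c => tan c v) '' {c | c ∈ R ∧ v ∈ c}

lemma RR_card (R : Set (Set (E → ℝ))) (hR : R.Finite) (v : E → ℝ) (u : Set (E → ℝ)) (S : Set (Set (E → ℝ)))
    (hRS : R ⊆ S) (hc : Car S v u) : (RR R v).ncard ≤ {c | c ∈ R ∧ u ⊆ c}.ncard := by
  have e : {c | c ∈ R ∧ v ∈ c} = {c | c ∈ R ∧ u ⊆ c} := by
    ext c
    constructor
    · rintro ⟨h1, h2⟩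
      exact ⟨h1, hc.min c (hRS h1) h2⟩
    · rintro ⟨h1, h2⟩
      exact ⟨h1, h2 hc.x_mem⟩
  unfold RR
  rw [e]
  exact ncard_image_le (hR.subset fun c hc => hc.1)

/-- equality of tangent cones -/
lemma tan_inj {M : Matroid E} {r : ℕ} {S : Set (Set (E → ℝ))} {v : E → ℝ} {u : Set (E → ℝ)}
    (D : SD M r S v u) {σ τ : Set (E → ℝ)} (hσ : σ ∈ S) (hτ : τ ∈ S) (h1 : v ∈ σ) (h2 : v ∈ τ)
    (h : tan σ v = tan τ v) : σ = τ :=
  Subset.antisymm ((D.sub σ hσ τ hτ h1 h2).1 h.subset) ((D.sub τ hτ σ hσ h2 h1).1 h.symm.subset)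

lemma not_mem_RR {M : Matroid E} {r : ℕ} {S : Set (Set (E → ℝ))} {v : E → ℝ} {u : Set (E → ℝ)}
    (D : SD M r S v u) {R : Set (Set (E → ℝ))} (hRS : R ⊆ S) {σ : Set (E → ℝ)} (hσ : σ ∈ S)
    (h1 : v ∈ σ) : tan σ v ∈ RR R v ↔ σ ∈ R := by
  constructor
  · rintro ⟨c, ⟨h2, h3⟩, h4⟩
    have := tan_inj D (hRS h2) hσ h3 h1 h4
    rw [← this]
    exact h2
  · intro h
    exact ⟨σ, ⟨h, h1⟩, rfl⟩

/-- facets of the star -/
lemma facet_star {M : Matroid E} {r : ℕ} {S : Set (Set (E → ℝ))} {v : E → ℝ} {u : Set (E → ℝ)}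
    (D : SD M r S v u) {σ : Set (E → ℝ)} (hσ : σ ∈ S) (h1 : v ∈ σ) :
    IsFacet r (star S v) (tan σ v) ↔ IsFacet r S σ := by
  unfold IsFacet
  rw [D.dm σ hσ h1]
  exact ⟨fun h => ⟨hσ, h.2⟩, fun h => ⟨⟨σ, hσ, h1, rfl⟩, h.2⟩⟩

lemma RR_facet {M : Matroid E} {r : ℕ} {S : Set (Set (E → ℝ))} {v : E → ℝ} {u : Set (E → ℝ)}
    (D : SD M r S v u) {R : Set (Set (E → ℝ))} (hR : ∀ σ ∈ R, IsFacet r S σ) :
    ∀ σ ∈ RR R v, IsFacet r (star S v) σ := by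
  rintro _ ⟨c, ⟨h2, h3⟩, rfl⟩
  exact (facet_star D (hR c h2).1 h3).2 (hR c h2)

/-- the case `u = lin S` -/
lemma cnt1 (hFAN : S_FAN) (hRAY : S_RAY) (hSTF : S_STF) (hSTM : S_STM) (hMAT : S_MAT)
    (hPURE : S_PURE) (hNONI : S_NONI) (r n : ℕ) : ∀ (M : Matroid E) (S : Set (Set (E → ℝ))),
    OK M r → FanOn M S → S.Nonempty → dim (lin S) + n = r →
    ∀ R : Set (Set (E → ℝ)), (∀ σ ∈ R, IsFacet r S σ) → R.ncard + dim (lin S) ≤ r →
    ∃ σ, IsFacet r S σ ∧ σ ∉ R := by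
  induction n with
  | zero =>
    intro M S hM hS hne hd R hR hc
    have hRf : R.Finite := hS.fan.fin.subset fun σ hσ => (hR σ hσ).1
    have hR0 : R = ∅ := by
      rw [← ncard_eq_zero hRf]
      omega
    obtain ⟨h1, -⟩ := (hFAN E S hS.fan hne).2.2.2.1
    obtain ⟨_, τ, h2, -⟩ := hPURE E M r S hM hS (lin S) h1
    exact ⟨τ, h2, by rw [hR0]; exact notMem_empty _⟩
  | succ n ih =>
    intro M S hM hS hne hd R hR hc
    have hRS : R ⊆ S := fun σ hσ => (hR σ hσ).1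
    have hRf : R.Finite := hS.fan.fin.subset hRS
    obtain ⟨_, hcar, _, ⟨hlS, hlin⟩, _⟩ := hFAN E S hS.fan hne
    obtain ⟨_, σ₀, hσ₀, -⟩ := hPURE E M r S hM hS (lin S) hlS
    have h1 : ¬ σ₀ ⊆ lin S := by
      intro h
      have := dim_mono h
      rw [hσ₀.2] at this
      omega
    obtain ⟨ρ, hρS, hρσ, hρd, hρl⟩ := hRAY E S hS.fan (lin S) hlS σ₀ hσ₀.1 h1
    by_cases hcase : ∃ τ ∈ R, ¬ ρ ⊆ τ
    · obtain ⟨τ₀, hτ₀, hτρ⟩ := hcase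
      obtain ⟨v, hv⟩ := hcar ρ hρS
      obtain ⟨D⟩ := exists_SD hSTF hSTM hMAT M r S hM hS v ρ hv
      have hcard : (RR R v).ncard + 1 ≤ R.ncard := by
        have h2 := RR_card R hRf v ρ S hRS hv
        have h3 : {c | c ∈ R ∧ ρ ⊆ c}.ncard < R.ncard := by
          apply ncard_lt_ncard _ hRf
          refine ⟨fun c hc => hc.1, fun h => ?_⟩
          exact hτρ (h hτ₀).2
        omega
      obtain ⟨σ', hσ', hσR⟩ := ih D.N (star S v) D.okN D.fan ⟨tan ρ v, ρ, hρS, hv.x_mem, rfl⟩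
        (by rw [D.ld, hρd]; omega) (RR R v) (RR_facet D hR) (by rw [D.ld, hρd]; omega)
      obtain ⟨σ, hσS, hvσ, rfl⟩ := hσ'.1
      refine ⟨σ, (facet_star D hσS hvσ).1 hσ', ?_⟩
      rw [← not_mem_RR D hRS hσS hvσ]
      exact hσR
    · push Not at hcase
      by_contra hcon
      push Not at hcon
      -- all facets contain `ρ`
      have hall : ∀ σ, IsFacet r S σ → ρ ⊆ σ := fun σ hσ => hcase σ (hcon σ hσ)
      obtain ⟨v, hvρ, hvl⟩ := not_subset.1 hρl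
      have hin : ∀ x ∈ berg M, ∃ σ, IsFacet r S σ ∧ x ∈ σ := by
        intro x hx
        rw [← hS.supp] at hx
        obtain ⟨κ, hκ, hxκ⟩ := hx
        obtain ⟨_, τ, h2, h3⟩ := hPURE E M r S hM hS κ hκ
        exact ⟨τ, h2, h3 hxκ⟩
      have hneg : -v ∈ berg M := by
        apply hNONI E M r hM v
        intro x hx
        obtain ⟨σ, h2, h3⟩ := hin x hx
        rw [← hS.supp]
        exact ⟨σ, h2.1, poly_add (hS.fan.poly σ h2.1) h3 (hall σ h2 hvρ)⟩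
      obtain ⟨σ, h2, h3⟩ := hin (-v) hneg
      apply hvl
      rw [← (hlin σ h2.1).2]
      exact ⟨hall σ h2 hvρ, h3⟩

/-- **CNT** -/
theorem t_CNT (hFAN : S_FAN) (hRAY : S_RAY) (hSTF : S_STF) (hSTM : S_STM) (hMAT : S_MAT)
    (hPURE : S_PURE) (hNONI : S_NONI) : S_CNT := by
  intro E _ M r S hM hS u hu R hR hc
  have hRS : R ⊆ S := fun σ hσ => (hR σ hσ).1
  have hRf : R.Finite := hS.fan.fin.subset hRS
  obtain ⟨_, hcar, -⟩ := hFAN E S hS.fan ⟨u, hu⟩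
  obtain ⟨v, hv⟩ := hcar u hu
  obtain ⟨D⟩ := exists_SD hSTF hSTM hMAT M r S hM hS v u hv
  have hcard : (RR R v).ncard ≤ R.ncard := by
    have h2 := RR_card R hRf v u S hRS hv
    have h3 : {c | c ∈ R ∧ u ⊆ c}.ncard ≤ R.ncard := ncard_le_ncard (fun c hc => hc.1) hRf
    omega
  obtain ⟨σ', hσ', hσR⟩ := cnt1 hFAN hRAY hSTF hSTM hMAT hPURE hNONI r (r - dim u) D.N (star S v) D.okN
    D.fan ⟨tan u v, u, hu, hv.x_mem, rfl⟩ (by rw [D.ld]; omega) (RR R v) (RR_facet D hR)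
    (by rw [D.ld]; omega)
  obtain ⟨σ, hσS, hvσ, rfl⟩ := hσ'.1
  refine ⟨σ, (facet_star D hσS hvσ).1 hσ', hv.min σ hσS hvσ, ?_⟩
  rw [← not_mem_RR D hRS hσS hvσ]
  exact hσR

end Run7.h688.BF
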