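import Pool.Agent.Run7.h688.BF.CNT

/-!
Project BF (helper480), piece IND (helper688), the main induction.
-/

set_option autoImplicit false
set_option linter.unusedSectionVars false

open Set Module

namespace Run7.h688.BF

open Run7.h480.BF

variable {E : Type} [Fintype E]

/-- a nonempty finite intersection of cones of a fan is in the fan -/
lemma inter_mem {S : Set (Set (E → ℝ))} (hS : IsFan S) (R : Set (Set (E → ℝ))) (hRS : R ⊆ S)
    (hR : R.Nonempty) : ⋂₀ R ∈ S := by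
  have hf : R.Finite := hS.fin.subset hRS
  revert hRS hR
  refine Set.Finite.induction_on (motive := fun R _ => R ⊆ S → R.Nonempty → ⋂₀ R ∈ S) R hf ?_ ?_
  · intro _ h
    exact absurd h (by simp)
  · intro a R' _ _ ih h1 _
    have ha : a ∈ S := h1 (mem_insert _ _)
    rw [sInter_insert]
    rcases R'.eq_empty_or_nonempty with h2 | h2
    · rw [h2, sInter_empty, inter_univ]
      exact ha
    · have h3 := ih (fun x hx => h1 (mem_insert_of_mem _ hx)) h2
      exact hS.face a ha _ (hS.inter a ha _ h3)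

/-- step (1): two facets through a good ray -/
lemma step1 (hSTF : S_STF) (hSTM : S_STM) (hMAT : S_MAT) (r : ℕ) (M : Matroid E)
    (S : Set (Set (E → ℝ))) (hM : OK M r) (hS : FanOn M S) (R : Set (Set (E → ℝ)))
    (hR : ∀ σ ∈ R, IsFacet r S σ) (ρ : Set (E → ℝ)) (v : E → ℝ) (hv : Car S v ρ)
    (hcard : {c | c ∈ R ∧ ρ ⊆ c}.ncard + dim ρ < r)
    (ih : ∀ (N : Matroid E) (S' : Set (Set (E → ℝ))), OK N r → FanOn N S' →
      dim (lin S') = dim ρ → KConn r (r - dim (lin S')) S')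
    (σ τ : Set (E → ℝ)) (hσ : IsFacet r S σ) (hσR : σ ∉ R) (hτ : IsFacet r S τ) (hτR : τ ∉ R)
    (h1 : ρ ⊆ σ) (h2 : ρ ⊆ τ) : Relation.ReflTransGen (Adj r S R) σ τ := by
  have hRS : R ⊆ S := fun σ hσ => (hR σ hσ).1
  have hRf : R.Finite := hS.fan.fin.subset hRS
  obtain ⟨D⟩ := exists_SD hSTF hSTM hMAT M r S hM hS v ρ hv
  have hvσ : v ∈ σ := h1 hv.x_mem
  have hvτ : v ∈ τ := h2 hv.x_mem
  have hRc := RR_card R hRf v ρ S hRS hv
  have hK := ih D.N (star S v) D.okN D.fan D.ld (RR R v) (RR_facet D hR)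
    (by rw [D.ld]; omega) (tan σ v) (tan τ v) ((facet_star D hσ.1 hvσ).2 hσ)
    (by rw [not_mem_RR D hRS hσ.1 hvσ]; exact hσR) ((facet_star D hτ.1 hvτ).2 hτ)
    (by rw [not_mem_RR D hRS hτ.1 hvτ]; exact hτR)
  -- transfer the chain
  have key : ∀ B, Relation.ReflTransGen (Adj r (star S v) (RR R v)) (tan σ v) B →
      ∃ β, IsFacet r S β ∧ v ∈ β ∧ B = tan β v ∧ Relation.ReflTransGen (Adj r S R) σ β := by
    intro B hB
    induction hB with
    | refl => exact ⟨σ, hσ, hvσ, rfl, Relation.ReflTransGen.refl⟩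
    | tail _ hstep hih =>
      obtain ⟨β, hβ, hvβ, hβe, hch⟩ := hih
      obtain ⟨⟨_, hβR⟩, ⟨hC, hCR⟩, q', hq', hqB, hqC, hqR⟩ := hstep
      obtain ⟨γ, hγS, hvγ, rfl⟩ := hC.1
      obtain ⟨q, hqS, hvq, rfl⟩ := hq'.1
      have hγ : IsFacet r S γ := (facet_star D hγS hvγ).1 hC
      rw [hβe] at hβR hqB
      rw [not_mem_RR D hRS hβ.1 hvβ] at hβR
      rw [not_mem_RR D hRS hγS hvγ] at hCR
      refine ⟨γ, hγ, hvγ, rfl, hch.tail ⟨⟨hβ, hβR⟩, ⟨hγ, hCR⟩, q, ⟨hqS, ?_⟩, ?_, ?_, ?_⟩⟩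
      · rw [← D.dm q hqS hvq]
        exact hq'.2
      · exact (D.sub q hqS β hβ.1 hvq hvβ).1 hqB
      · exact (D.sub q hqS γ hγS hvq hvγ).1 hqC
      · intro c hc hqc
        have hvc : v ∈ c := hqc hvq
        exact hqR (tan c v) ⟨c, ⟨hc, hvc⟩, rfl⟩ ((D.sub q hqS c (hRS hc) hvq hvc).2 hqc)
  obtain ⟨β, hβ, hvβ, hβe, hch⟩ := key _ hK
  have : τ = β := tan_inj D hτ.1 hβ.1 hvτ hvβ hβe
  rw [this]
  exact hch

lemma ind1 (hFAN : S_FAN) (hRAY : S_RAY) (hSTF : S_STF) (hSTM : S_STM) (hMAT : S_MAT)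
    (hLINK : S_LINK) (hCNT : S_CNT) (r n : ℕ) :
    ∀ (M : Matroid E) (S : Set (Set (E → ℝ))), OK M r → FanOn M S → r - dim (lin S) = n →
      KConn r (r - dim (lin S)) S := by
  induction n with
  | zero =>
    intro M S _ _ hd R _ hc
    omega
  | succ n ih =>
    intro M S hM hS hd R hR hc σ τ hσ hσR hτ hτR
    have hRS : R ⊆ S := fun σ hσ => (hR σ hσ).1
    have hRf : R.Finite := hS.fan.fin.subset hRS
    obtain ⟨_, hcar, hdim, ⟨hlS, hlin⟩, _⟩ := hFAN E S hS.fan ⟨σ, hσ.1⟩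
    rcases Nat.eq_zero_or_pos n with hn | hn
    · -- `r - l = 1`
      have hR0 : R = ∅ := by
        rw [← ncard_eq_zero hRf]
        omega
      apply Relation.ReflTransGen.single
      refine ⟨⟨hσ, hσR⟩, ⟨hτ, hτR⟩, lin S, ⟨hlS, by omega⟩, (hlin σ hσ.1).1, (hlin τ hτ.1).1, ?_⟩
      intro c hc
      rw [hR0] at hc
      exact absurd hc (notMem_empty _)
    · -- the cone `T`
      obtain ⟨T, hTS, hTR, hTσ⟩ : ∃ T ∈ S, (∀ ρ ∈ S, dim ρ = dim (lin S) + 1 → ¬ ρ ⊆ T →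
          {c | c ∈ R ∧ ρ ⊆ c}.ncard + dim ρ < r) ∧ (∀ σ, IsFacet r S σ → σ ∉ R → ¬ σ ⊆ T) := by
        by_cases hcase : R.ncard + dim (lin S) + 1 = r
        · have hne : R.Nonempty := by
            rw [← ncard_pos hRf]
            omega
          refine ⟨⋂₀ R, inter_mem hS.fan R hRS hne, ?_, ?_⟩
          · intro ρ _ hρd hρT
            have h1 : ∃ c ∈ R, ¬ ρ ⊆ c := by
              by_contra hcon
              push Not at hcon
              exact hρT (subset_sInter hcon)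
            obtain ⟨c, hcR, hcρ⟩ := h1
            have h2 : {c | c ∈ R ∧ ρ ⊆ c}.ncard < R.ncard := by
              apply ncard_lt_ncard _ hRf
              refine ⟨fun c hc => hc.1, fun h => ?_⟩
              exact hcρ (h hcR).2
            omega
          · intro σ hσ hσR hsub
            obtain ⟨c, hcR⟩ := hne
            have h1 : σ ⊆ c := fun x hx => hsub hx c hcR
            have h2 := hdim σ hσ.1 c (hRS hcR) h1 (by rw [hσ.2, (hR c hcR).2])
            rw [h2] at hσR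
            exact hσR hcR
        · refine ⟨lin S, hlS, ?_, ?_⟩
          · intro ρ _ hρd _
            have h2 : {c | c ∈ R ∧ ρ ⊆ c}.ncard ≤ R.ncard := ncard_le_ncard (fun c hc => hc.1) hRf
            omega
          · intro σ hσ _ hsub
            have := dim_mono hsub
            rw [hσ.2] at this
            omega
      -- good rays exist
      have hgood : ∀ σ, IsFacet r S σ → σ ∉ R → ∃ ρ ∈ S, ρ ⊆ σ ∧ dim ρ = dim (lin S) + 1 ∧ ¬ ρ ⊆ T :=
        fun σ hσ hσR => hRAY E S hS.fan T hTS σ hσ.1 (hTσ σ hσ hσR)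
      -- two facets through a good ray
      have hone : ∀ ρ ∈ S, dim ρ = dim (lin S) + 1 → ¬ ρ ⊆ T → ∀ σ τ, IsFacet r S σ → σ ∉ R →
          IsFacet r S τ → τ ∉ R → ρ ⊆ σ → ρ ⊆ τ → Relation.ReflTransGen (Adj r S R) σ τ := by
        intro ρ hρS hρd hρT σ τ hσ hσR hτ hτR h1 h2
        obtain ⟨v, hv⟩ := hcar ρ hρS
        apply step1 hSTF hSTM hMAT r M S hM hS R hR ρ v hv (hTR ρ hρS hρd hρT) _ σ τ hσ hσR hτ hτR h1 h2
        intro N S' hN hS' hd'
        apply ih N S' hN hS'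
        rw [hd', hρd]
        omega
      obtain ⟨ρ, hρS, hρσ, hρd, hρT⟩ := hgood σ hσ hσR
      obtain ⟨ρ', hρS', hρτ, hρd', hρT'⟩ := hgood τ hτ hτR
      have hlink := hLINK E M r S hM hS (by omega) T hTS ρ hρS ρ' hρS' hρd hρd' hρT hρT'
      -- along the chain
      have key : ∀ b, Relation.ReflTransGen (Link S T) ρ b → b ∈ S ∧ dim b = dim (lin S) + 1 ∧
          ¬ b ⊆ T ∧ ∀ κ, IsFacet r S κ → κ ∉ R → b ⊆ κ → Relation.ReflTransGen (Adj r S R) σ κ := by
        intro b hb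
        induction hb with
        | refl =>
          exact ⟨hρS, hρd, hρT, fun κ hκ hκR hbκ => hone ρ hρS hρd hρT σ κ hσ hσR hκ hκR hρσ hbκ⟩
        | @tail b c _ hstep hih =>
          obtain ⟨hbS, hbd, hbT, hb⟩ := hih
          obtain ⟨_, ⟨hcS, hcd, hcT⟩, u, huS, hud, hbu, hcu⟩ := hstep
          refine ⟨hcS, hcd, hcT, fun κ hκ hκR hcκ => ?_⟩
          have h1 := hTR b hbS hbd hbT
          obtain ⟨κ', hκ', huκ, hκR'⟩ := hCNT E M r S hM hS u huS {c | c ∈ R ∧ b ⊆ c}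
            (fun σ hσ => hR σ hσ.1) (by omega)
          have hκR2 : κ' ∉ R := fun h => hκR' ⟨h, hbu.trans huκ⟩
          exact (hb κ' hκ' hκR2 (hbu.trans huκ)).trans
            (hone c hcS hcd hcT κ' κ hκ' hκR2 hκ hκR (hcu.trans huκ) hcκ)
      exact (key ρ' hlink).2.2.2 τ hτ hτR hρτ

/-- **IND** -/
theorem t_IND (hFAN : S_FAN) (hRAY : S_RAY) (hSTF : S_STF) (hSTM : S_STM) (hMAT : S_MAT)
    (hLINK : S_LINK) (hCNT : S_CNT) : S_IND := by
  intro E _ M r S hM hS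
  exact ind1 hFAN hRAY hSTF hSTM hMAT hLINK hCNT r _ M S hM hS rfl

end Run7.h688.BF
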