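import Pool.Agent.Run7.h480.BF.MatA

/-!
Project BF (helper480), piece PURE (helper688).
-/

set_option autoImplicit false
set_option linter.unusedSectionVars false

open Set Module Filter Topology

namespace Run7.h688.BF

open Run7.h480.BF

variable {E : Type} [Fintype E]

lemma poly_closed {σ : Set (E → ℝ)} (h : IsPoly σ) : IsClosed σ := by
  obtain ⟨n, f, rfl⟩ := h
  have e : {x : E → ℝ | ∀ i, 0 ≤ f i x} = ⋂ i, {x | 0 ≤ f i x} := by
    ext x
    simp
  rw [e]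
  exact isClosed_iInter fun i => isClosed_le continuous_const (f i).continuous_of_finiteDimensional

/-- **PURE** -/
theorem t_PURE (hREF : S_REF) (hDIMK : S_DIMK) (hMAX : S_MAX) (hFAN : S_FAN) : S_PURE := by
  intro E _ M r S hM hS σ hσ
  have hle : ∀ σ ∈ S, dim σ ≤ r := by
    intro σ hσ
    obtain ⟨w, hw, h⟩ := hREF E M r S hM hS σ hσ
    have hwb : w ∈ berg M := by rw [← hS.supp]; exact ⟨σ, hσ, hw⟩
    refine le_trans ?_ (hDIMK E M r hM w hwb)
    apply Submodule.finrank_mono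
    rw [Submodule.span_le]
    intro x hx
    exact LinK_mono (h x hx) (self_mem_LinK M x)
  refine ⟨hle σ hσ, ?_⟩
  obtain ⟨_, hcar, -⟩ := hFAN E S hS.fan ⟨σ, hσ⟩
  obtain ⟨v, hv⟩ := hcar σ hσ
  have hvb : v ∈ berg M := by rw [← hS.supp]; exact ⟨σ, hσ, hv.x_mem⟩
  obtain ⟨y, hy, hyv, hyd⟩ := hMAX E M r hM v hvb
  by_contra hcon
  -- all cones containing `v` have dimension `< r`
  have hlt : ∀ τ ∈ S, v ∈ τ → dim τ < r := by
    intro τ hτ hvτ
    exact lt_of_le_of_ne (hle τ hτ) (fun h => hcon ⟨τ, ⟨hτ, h⟩, hv.min τ hτ hvτ⟩)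
  obtain ⟨z, hzW, hz⟩ : ∃ z ∈ LinK (Ini M y), ∀ τ ∈ S, v ∈ τ → z ∉ Submodule.span ℝ τ := by
    have hfin : Finite {τ // τ ∈ S ∧ v ∈ τ} :=
      (hS.fan.fin.subset (fun τ (h : τ ∈ S ∧ v ∈ τ) => h.1)).to_subtype
    by_contra hcon2
    push Not at hcon2
    have hcov : ⋃ i : {τ // τ ∈ S ∧ v ∈ τ},
        (((Submodule.span ℝ i.1).comap (LinK (Ini M y)).subtype : Submodule ℝ (LinK (Ini M y))) :
          Set (LinK (Ini M y))) = univ := by
      apply eq_univ_of_forall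
      rintro ⟨z, hz⟩
      obtain ⟨τ, h1, h2, h3⟩ := hcon2 z hz
      rw [mem_iUnion]
      exact ⟨⟨τ, h1, h2⟩, h3⟩
    obtain ⟨i, hi⟩ := Subspace.exists_eq_top_of_iUnion_eq_univ hcov
    have h1 : LinK (Ini M y) ≤ Submodule.span ℝ i.1 := by
      intro z hz
      have h2 : (⟨z, hz⟩ : LinK (Ini M y)) ∈ (Submodule.span ℝ i.1).comap (LinK (Ini M y)).subtype := by
        rw [hi]
        trivial
      exact h2
    have h2 := Submodule.finrank_mono h1
    have h3 := hlt i.1 i.2.1 i.2.2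
    unfold dim at h3
    omega
  -- the bad parameters
  have hbad : {s : ℝ | ∃ τ ∈ S, v ∈ τ ∧ y + s • z ∈ Submodule.span ℝ τ}.Finite := by
    have e : {s : ℝ | ∃ τ ∈ S, v ∈ τ ∧ y + s • z ∈ Submodule.span ℝ τ} =
        ⋃ τ ∈ {τ | τ ∈ S ∧ v ∈ τ}, {s : ℝ | y + s • z ∈ Submodule.span ℝ τ} := by
      ext s
      simp only [mem_iUnion, mem_ofPred_eq, exists_prop]
      constructor
      · rintro ⟨τ, h1, h2, h3⟩
        exact ⟨τ, ⟨h1, h2⟩, h3⟩
      · rintro ⟨τ, ⟨h1, h2⟩, h3⟩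
        exact ⟨τ, h1, h2, h3⟩
    rw [e]
    apply (hS.fan.fin.subset (fun τ (h : τ ∈ S ∧ v ∈ τ) => h.1)).biUnion
    rintro τ ⟨h1, h2⟩
    apply Set.Subsingleton.finite
    intro s hs s' hs'
    by_contra hne
    have h3 : (s - s') • z ∈ Submodule.span ℝ τ := by
      have hs1 : y + s • z ∈ Submodule.span ℝ τ := hs
      have hs2 : y + s' • z ∈ Submodule.span ℝ τ := hs'
      have := Submodule.sub_mem _ hs1 hs2
      have e : y + s • z - (y + s' • z) = (s - s') • z := by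
        rw [sub_smul]
        abel
      rw [e] at this
      exact this
    exact hz τ h1 h2 ((Submodule.smul_mem_iff _ (sub_ne_zero.2 hne)).1 h3)
  obtain ⟨ε, hε, hεs⟩ := exists_eps_ini M y z
  obtain ⟨s, ⟨hs0, hs1⟩, hs⟩ := (Ioc_infinite hε).exists_notMem_finite hbad
  obtain ⟨y', hy'⟩ : ∃ y' : E → ℝ, y' = y + s • z := ⟨_, rfl⟩
  have hini : Ini M y' = Ini M y := by
    rw [hy', hεs s hs0 hs1]
    ext B
    constructor
    · exact fun h => h.1
    · exact fun h => ⟨h, fun B' hB' => (hzW B h B' hB').le⟩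
  have hspan : ∀ τ ∈ S, v ∈ τ → y' ∉ Submodule.span ℝ τ := by
    intro τ h1 h2 h3
    rw [hy'] at h3
    exact hs ⟨τ, h1, h2, h3⟩
  have hin : ∀ t : ℝ, 0 < t → v + t • y' ∈ ⋃₀ S := by
    intro t ht
    rw [hS.supp, t_BERG E M r hM]
    have h1 : Ini M (v + t • y') = Ini M y := by
      have h2 := ini_seg (M := M) (x := v) (y := y') (by rw [hini]; exact hyv) (zero_le_one (α := ℝ)) ht
      rw [one_smul, hini] at h2
      exact h2
    rw [h1]
    exact (t_BERG E M r hM y).1 hy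
  have hev : ∀ τ ∈ S, ∀ᶠ t : ℝ in 𝓝[>] 0, v + t • y' ∉ τ := by
    intro τ hτ
    by_cases hvτ : v ∈ τ
    · filter_upwards [self_mem_nhdsWithin] with t ht hcon3
      apply hspan τ hτ hvτ
      have h1 : v + t • y' - v ∈ Submodule.span ℝ τ :=
        Submodule.sub_mem _ (Submodule.subset_span hcon3) (Submodule.subset_span hvτ)
      rw [add_sub_cancel_left] at h1
      exact (Submodule.smul_mem_iff _ (ne_of_gt ht)).1 h1
    · have h1 : IsOpen τᶜ := (poly_closed (hS.fan.poly τ hτ)).isOpen_compl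
      have h2 : ContinuousAt (fun t : ℝ => v + t • y') 0 := by fun_prop
      have h3 : (fun t : ℝ => v + t • y') 0 ∈ τᶜ := by
        show v + (0 : ℝ) • y' ∈ τᶜ
        rw [zero_smul, add_zero]
        exact hvτ
      exact mem_nhdsWithin_of_mem_nhds (h2.preimage_mem_nhds (h1.mem_nhds h3))
  have hev2 := (eventually_all_finite hS.fan.fin).2 hev
  obtain ⟨t, h1, h2⟩ := (hev2.and (self_mem_nhdsWithin : ∀ᶠ t : ℝ in 𝓝[>] 0, t ∈ Ioi 0)).exists
  obtain ⟨τ, hτ, h3⟩ := hin t h2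
  exact h1 τ hτ h3

end Run7.h688.BF
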